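import Mathlib.GroupTheory.SemidirectProduct
import Mathlib.GroupTheory.Index
import Mathlib.GroupTheory.GroupAction.Quotient
import Mathlib.GroupTheory.Coset.Card
import Mathlib.Data.ZMod.Basic
import Mathlib.Data.Finset.Card
import Mathlib.Data.Fintype.Prod
import Mathlib.Tactic.NormNum
import Mathlib.Tactic.Group
import Mathlib.Data.Fintype.EquivFin
import Mathlib.Algebra.Group.TypeTags.Finite
import Mathlib.GroupTheory.OrderOfElement

/-! # A gap in the base size set of a finite group

The Frobenius group of order `80` (the field with `16` elements extended by the multiplication by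
the fifth roots of unity) has base size set `{1, 2, 4}`. -/

namespace Pool.Agent.Results.MP_2beb52_al.BaseSizeGap

/-- A base of an action: a set of points with trivial pointwise stabilizer. -/
def IsBase (G : Type) {S : Type} [Group G] [MulAction G S] (B : Finset S) : Prop :=
  ∀ g : G, (∀ x ∈ B, g • x = x) → g = 1

/-- `n` is the base size of the action: the least cardinality of a base. -/
def HasBaseSize (G S : Type) [Group G] [MulAction G S] (n : ℕ) : Prop :=
  (∃ B : Finset S, IsBase G B ∧ B.card = n) ∧ ∀ B : Finset S, IsBase G B → n ≤ B.card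

/-- The base size set of a group: the base sizes of all faithful actions on finite sets. -/
def baseSizeSet (G : Type) [Group G] : Set ℕ :=
  {n | ∃ (S : Type) (_ : Finite S) (_ : MulAction G S), FaithfulSMul G S ∧ HasBaseSize G S n}

section Model

/-- The elementary abelian group of order `16`. -/
abbrev E : Type := Multiplicative (ZMod 2 × ZMod 2 × ZMod 2 × ZMod 2)

/-- The automorphism of order five. -/
def sg : MulAut E := AddEquiv.toMultiplicative
  { toFun := fun v => (v.2.2.2, v.1 + v.2.2.2, v.2.1 + v.2.2.2, v.2.2.1 + v.2.2.2)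
    invFun := fun v => (v.2.1 - v.1, v.2.2.1 - v.1, v.2.2.2 - v.1, v.1)
    left_inv := by decide
    right_inv := by decide
    map_add' := by decide +kernel }

theorem sg_five : sg ^ 5 = 1 := by
  apply MulEquiv.ext
  decide +kernel

/-- The group of order `80`. -/
abbrev G : Type := E ⋊[(Subgroup.zpowers sg).subtype] (Subgroup.zpowers sg)

theorem right_eq (h : Subgroup.zpowers sg) : ∃ k : Fin 5, sg ^ (k : ℕ) = h := by
  obtain ⟨h, hh⟩ := h
  have h1 : h ∈ Submonoid.powers sg := by
    rw [IsOfFinOrder.mem_powers_iff_mem_zpowers]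
    · exact hh
    · exact isOfFinOrder_iff_pow_eq_one.mpr ⟨5, by norm_num, sg_five⟩
  obtain ⟨n, rfl⟩ := h1
  refine ⟨⟨n % 5, Nat.mod_lt _ (by norm_num)⟩, ?_⟩
  change sg ^ (n % 5) = sg ^ n
  conv_rhs => rw [← Nat.div_add_mod n 5, pow_add, pow_mul, sg_five, one_pow, one_mul]

theorem gen : ∀ (k : Fin 5), k ≠ 0 → ∀ a : E, a ≠ 1 → ∀ v : E, ∃ e : Fin 2 × Fin 2 × Fin 2 × Fin 2,
    v = a ^ (e.1 : ℕ) * ((sg ^ (k : ℕ)) a) ^ (e.2.1 : ℕ) *
      ((sg ^ (k : ℕ)) ((sg ^ (k : ℕ)) a)) ^ (e.2.2.1 : ℕ) *
      ((sg ^ (k : ℕ)) ((sg ^ (k : ℕ)) ((sg ^ (k : ℕ)) a))) ^ (e.2.2.2 : ℕ) := by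
  decide +kernel

theorem eight : ∀ a : E, a ≠ 1 → ∀ b : E, b ≠ 1 →
    8 ≤ (Finset.univ.image fun e : Fin 2 × Fin 2 × Fin 2 × Fin 2 =>
      a ^ (e.1 : ℕ) * (sg a) ^ (e.2.1 : ℕ) * b ^ (e.2.2.1 : ℕ) *
      ((sg ^ 2) b) ^ (e.2.2.2 : ℕ)).card := by
  decide +kernel

theorem noFix : ∀ (k : Fin 5), k ≠ 0 → ∀ a : E, (sg ^ (k : ℕ)) a = a → a = 1 := by
  decide +kernel

theorem sg_ne_one : sg ≠ 1 := by
  intro h
  have h1 : sg (Multiplicative.ofAdd ((1, 0, 0, 0) : ZMod 2 × ZMod 2 × ZMod 2 × ZMod 2)) =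
      Multiplicative.ofAdd ((1, 0, 0, 0) : ZMod 2 × ZMod 2 × ZMod 2 × ZMod 2) := by rw [h]; rfl
  revert h1
  decide

theorem ne_one_of_right (x : E) : (⟨x, ⟨sg, ⟨1, by simp⟩⟩⟩ : G) ≠ 1 := by
  intro h
  exact sg_ne_one (congrArg (fun g : G => (g.right : MulAut E)) h)

theorem card_E : Nat.card E = 16 := by
  rw [Nat.card_eq_fintype_card]
  decide +kernel

/-- Conjugation by an element of `G` on the normal subgroup. -/
theorem conj_inl (g : G) (v : E) :
    g * SemidirectProduct.inl v * g⁻¹ = SemidirectProduct.inl ((g.right : MulAut E) v) := by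
  apply SemidirectProduct.ext
  · simp [mul_comm, mul_left_comm]
  · simp

end Model

section Action

open SemidirectProduct

variable {S : Type} [MulAction G S]

/-- The translations fixing a point. -/
def U (x : S) : Subgroup E := (MulAction.stabilizer G x).comap inl

theorem mem_U {x : S} {v : E} : v ∈ U x ↔ (inl v : G) • x = x := Iff.rfl

theorem U_invariant {x : S} {g : G} (hg : g • x = x) {v : E} (hv : v ∈ U x) :
    (g.right : MulAut E) v ∈ U x := by
  rw [mem_U, ← conj_inl, mul_smul, mul_smul]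
  have h1 : g⁻¹ • x = x := by rw [inv_smul_eq_iff, hg]
  rw [h1, mem_U.mp hv, hg]

/-- A subgroup invariant under a nontrivial power of `sg` is trivial or everything. -/
theorem invariant_subgroup (W : Subgroup E) (k : Fin 5) (hk : k ≠ 0)
    (hW : ∀ v ∈ W, (sg ^ (k : ℕ)) v ∈ W) : W = ⊥ ∨ W = ⊤ := by
  by_cases h : ∃ a ∈ W, a ≠ 1
  · right
    obtain ⟨a, ha, ha1⟩ := h
    rw [eq_top_iff]
    intro v _
    obtain ⟨e, he⟩ := gen k hk a ha1 v
    rw [he]
    exact W.mul_mem (W.mul_mem (W.mul_mem (W.pow_mem ha _) (W.pow_mem (hW _ ha) _))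
      (W.pow_mem (hW _ (hW _ ha)) _)) (W.pow_mem (hW _ (hW _ (hW _ ha))) _)
  · left
    push Not at h
    exact (Subgroup.eq_bot_iff_forall W).mpr h

theorem right_ne {g : G} (hg : g.right ≠ 1) :
    ∃ k : Fin 5, k ≠ 0 ∧ sg ^ (k : ℕ) = (g.right : MulAut E) := by
  obtain ⟨k, hk⟩ := right_eq g.right
  refine ⟨k, ?_, hk⟩
  rintro rfl
  apply hg
  apply Subtype.ext
  rw [← hk]
  rfl

theorem eq_inl {g : G} (hg : g.right = 1) : g = inl g.left :=
  SemidirectProduct.ext rfl hg

/-- A point with trivial translation stabilizer belongs to a base with at most two points. -/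
theorem base_of_bot {x : S} (hx : U x = ⊥) : ∃ B : Finset S, IsBase G B ∧ B.card ≤ 2 := by
  classical
  obtain ⟨v, hv⟩ : ∃ v : E, v ≠ 1 := ⟨Multiplicative.ofAdd (1, 0, 0, 0), by decide⟩
  refine ⟨{x, (inl v : G) • x}, ?_, Finset.card_le_two⟩
  intro h hh
  have h1 : h • x = x := hh x (by simp)
  have h2 : h • (inl v : G) • x = (inl v : G) • x := hh _ (by simp)
  by_cases hr : h.right = 1
  · have h3 := eq_inl hr
    rw [h3] at h1
    have h4 : h.left ∈ U x := h1
    rw [hx, Subgroup.mem_bot] at h4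
    rw [h3, h4, map_one]
  · exfalso
    obtain ⟨k, hk, hkr⟩ := right_ne hr
    -- the commutator
    have h3 : (v⁻¹ * (h.right : MulAut E) v) ∈ U x := by
      rw [mem_U, map_mul, ← conj_inl, map_inv]
      have h4 : (inl v : G)⁻¹ * (h * inl v * h⁻¹) = ((inl v : G)⁻¹ * h * inl v) * h⁻¹ := by group
      have h5 : h⁻¹ • x = x := by rw [inv_smul_eq_iff, h1]
      rw [h4, mul_smul, h5, mul_smul, mul_smul, h2, inv_smul_smul]
    rw [hx, Subgroup.mem_bot, inv_mul_eq_one] at h3
    exact hv (noFix k hk v (by rw [hkr]; exact h3.symm))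

/-- If there is no base with at most two points, all translation stabilizers have order at
least eight. -/
theorem eight_le (hno : ¬ ∃ B : Finset S, IsBase G B ∧ B.card ≤ 2) (x : S) :
    8 ≤ Nat.card (U x) := by
  classical
  have hbot : U x ≠ ⊥ := fun h => hno (base_of_bot h)
  by_cases hr : ∃ g : G, g • x = x ∧ g.right ≠ 1
  · obtain ⟨g, hg, hgr⟩ := hr
    obtain ⟨k, hk, hkr⟩ := right_ne hgr
    rcases invariant_subgroup (U x) k hk (fun v hv => by rw [hkr]; exact U_invariant hg hv) with h | h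
    · exact absurd h hbot
    · rw [h, Subgroup.card_top, card_E]; norm_num
  · push Not at hr
    -- the two-point sets `{x, z^i x}`
    have key : ∀ i : ℕ, ∃ a : E, a ≠ 1 ∧ a ∈ U x ∧ (sg ^ i) a ∈ U x := by
      intro i
      let z : G := inr ⟨sg ^ i, ⟨i, by simp⟩⟩
      have hnb : ¬ IsBase G ({x, z⁻¹ • x} : Finset S) := fun h => hno ⟨_, h, Finset.card_le_two⟩
      rw [IsBase] at hnb
      push Not at hnb
      obtain ⟨g, hg, hg1⟩ := hnb
      have h1 : g • x = x := hg x (by simp)
      have h2 : g • z⁻¹ • x = z⁻¹ • x := hg _ (by simp)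
      have h3 := eq_inl (hr g h1)
      refine ⟨g.left, ?_, ?_, ?_⟩
      · intro h4
        apply hg1
        rw [h3, h4, map_one]
      · rw [mem_U, ← h3]; exact h1
      · have h4 : (sg ^ i) g.left = (z.right : MulAut E) g.left := rfl
        rw [mem_U, h4, ← conj_inl, ← h3, mul_smul, mul_smul, h2, smul_inv_smul]
    obtain ⟨a, ha, haU, haU'⟩ := key 1
    obtain ⟨b, hb, hbU, hbU'⟩ := key 2
    rw [pow_one] at haU'
    have h8 := eight a ha b hb
    refine h8.trans ?_
    have hsub : ∀ v ∈ (Finset.univ.image fun e : Fin 2 × Fin 2 × Fin 2 × Fin 2 =>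
        a ^ (e.1 : ℕ) * (sg a) ^ (e.2.1 : ℕ) * b ^ (e.2.2.1 : ℕ) *
        ((sg ^ 2) b) ^ (e.2.2.2 : ℕ)), v ∈ U x := by
      intro v hv
      obtain ⟨e, -, rfl⟩ := Finset.mem_image.mp hv
      exact (U x).mul_mem ((U x).mul_mem ((U x).mul_mem ((U x).pow_mem haU _)
        ((U x).pow_mem haU' _)) ((U x).pow_mem hbU _)) ((U x).pow_mem hbU' _)
    generalize (Finset.univ.image fun e : Fin 2 × Fin 2 × Fin 2 × Fin 2 =>
        a ^ (e.1 : ℕ) * (sg a) ^ (e.2.1 : ℕ) * b ^ (e.2.2.1 : ℕ) *
        ((sg ^ 2) b) ^ (e.2.2.2 : ℕ)) = T at hsub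
    rw [← Fintype.card_coe T, ← Nat.card_eq_fintype_card]
    refine Nat.card_le_card_of_injective (fun v : T => (⟨v, hsub v v.2⟩ : U x)) ?_
    intro v w hvw
    have h9 := congrArg (fun u : U x => (u : E)) hvw
    exact Subtype.ext h9

/-- If all translation stabilizers have order at least eight, bases have at least four points. -/
theorem four_le (h8 : ∀ x : S, 8 ≤ Nat.card (U x)) (B : Finset S) (hB : IsBase G B) :
    4 ≤ B.card := by
  have hidx : ∀ x : S, (U x).index ≤ 2 := by
    intro x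
    have h1 := (U x).card_mul_index
    rw [card_E] at h1
    have h2 := h8 x
    by_contra hcon
    push Not at hcon
    have : 8 * 3 ≤ Nat.card (U x) * (U x).index := Nat.mul_le_mul h2 hcon
    omega
  have hinf : (⨅ x : B, U (x : S)) = ⊥ := by
    rw [Subgroup.eq_bot_iff_forall]
    intro v hv
    rw [Subgroup.mem_iInf] at hv
    have h1 : (inl v : G) = 1 := hB _ (fun x hx => hv ⟨x, hx⟩)
    exact inl_injective (h1.trans (map_one inl).symm)
  have h1 : (⨅ x : B, U (x : S)).index ≤ ∏ x : B, (U (x : S)).index := Subgroup.index_iInf_le _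
  have h2 : ∏ x : B, (U (x : S)).index ≤ ∏ _x : B, 2 :=
    Finset.prod_le_prod' fun x _ => hidx x
  rw [hinf, Subgroup.index_bot, card_E] at h1
  rw [Finset.prod_const, Finset.card_univ, Fintype.card_coe] at h2
  by_contra hcon
  push Not at hcon
  have h3 : 2 ^ B.card ≤ 2 ^ 3 := Nat.pow_le_pow_right (by norm_num) (by omega)
  have := h1.trans (h2.trans h3)
  norm_num at this

/-- If the action is faithful and all translation stabilizers have order at least eight, there is
a base with at most four points. -/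
theorem base_four [FaithfulSMul G S] (h8 : ∀ x : S, 8 ≤ Nat.card (U x)) :
    ∃ B : Finset S, IsBase G B ∧ B.card ≤ 4 := by
  classical
  obtain ⟨x, hx⟩ : ∃ x : S, U x ≠ ⊤ := by
    by_contra hcon
    push Not at hcon
    obtain ⟨v, hv⟩ : ∃ v : E, v ≠ 1 := ⟨Multiplicative.ofAdd (1, 0, 0, 0), by decide⟩
    have h1 : (inl v : G) = 1 := by
      apply FaithfulSMul.eq_of_smul_eq_smul (α := S)
      intro y
      have : v ∈ U y := by rw [hcon y]; trivial
      rw [one_smul]
      exact this
    exact hv (inl_injective (h1.trans (map_one inl).symm))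
  have hbot : U x ≠ ⊥ := by
    intro h
    have := h8 x
    rw [h, Subgroup.card_bot] at this
    omega
  let z : G := inr ⟨sg, ⟨1, by simp⟩⟩
  refine ⟨{x, z⁻¹ • x, z⁻¹ • z⁻¹ • x, z⁻¹ • z⁻¹ • z⁻¹ • x}, ?_, Finset.card_le_four⟩
  intro h hh
  have h1 : h • x = x := hh x (by simp)
  have h2 : h • z⁻¹ • x = z⁻¹ • x := hh _ (by simp)
  have h3 : h • z⁻¹ • z⁻¹ • x = z⁻¹ • z⁻¹ • x := hh _ (by simp)
  have h4 : h • z⁻¹ • z⁻¹ • z⁻¹ • x = z⁻¹ • z⁻¹ • z⁻¹ • x := hh _ (by simp)
  have hr : h.right = 1 := by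
    by_contra hr
    obtain ⟨k, hk, hkr⟩ := right_ne hr
    rcases invariant_subgroup (U x) k hk (fun v hv => by rw [hkr]; exact U_invariant h1 hv)
      with h5 | h5
    · exact hbot h5
    · exact hx h5
  have h5 := eq_inl hr
  by_contra hne
  have ha : h.left ≠ 1 := by
    intro h6
    apply hne
    rw [h5, h6, map_one]
  apply hx
  rw [eq_top_iff]
  intro v _
  obtain ⟨e, he⟩ := gen 1 (by decide) h.left ha v
  have hz : ∀ (w : E) (y : S), (inl w : G) • z⁻¹ • y = z⁻¹ • y → sg w ∈ U y := by
    intro w y hw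
    have h4 : sg w = (z.right : MulAut E) w := rfl
    rw [mem_U, h4, ← conj_inl, mul_smul, mul_smul, hw, smul_inv_smul]
  rw [h5] at h1 h2 h3 h4
  have m1 : h.left ∈ U x := h1
  have m2 : sg h.left ∈ U x := hz _ _ h2
  have m3 : sg (sg h.left) ∈ U x := hz _ _ (hz _ _ h3)
  have m4 : sg (sg (sg h.left)) ∈ U x := hz _ _ (hz _ _ (hz _ _ h4))
  rw [he]
  exact (U x).mul_mem ((U x).mul_mem ((U x).mul_mem ((U x).pow_mem m1 _)
    ((U x).pow_mem m2 _)) ((U x).pow_mem m3 _)) ((U x).pow_mem m4 _)

/-- The base size of a faithful action of `G` is `1`, `2` or `4`. -/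
theorem baseSize_mem [FaithfulSMul G S] {n : ℕ} (h : HasBaseSize G S n) :
    n = 1 ∨ n = 2 ∨ n = 4 := by
  obtain ⟨⟨B, hB, hn⟩, hmin⟩ := h
  have h0 : n ≠ 0 := by
    rintro rfl
    have h1 : B = ∅ := Finset.card_eq_zero.mp hn
    have h2 : (inr ⟨sg, ⟨1, by simp⟩⟩ : G) = 1 := hB _ (by rw [h1]; simp)
    exact ne_one_of_right _ h2
  by_cases hno : ∃ B : Finset S, IsBase G B ∧ B.card ≤ 2
  · obtain ⟨B', hB', hc⟩ := hno
    have := hmin B' hB'
    omega
  · obtain ⟨B', hB', hc⟩ := base_four (eight_le hno)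
    have h1 := hmin B' hB'
    have h2 := four_le (eight_le hno) B hB
    omega

end Action

section Examples

open SemidirectProduct

instance : Finite G := Finite.of_equiv _ SemidirectProduct.equivProd.symm

/-- `1` is a base size. -/
theorem one_mem : 1 ∈ baseSizeSet G := by
  refine ⟨G, inferInstance, inferInstance, inferInstance, ⟨{1}, ?_, Finset.card_singleton _⟩, ?_⟩
  · intro g hg
    have := hg 1 (by simp)
    simpa using this
  · intro B hB
    rw [Nat.one_le_iff_ne_zero]
    intro h0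
    have h1 : B = ∅ := Finset.card_eq_zero.mp h0
    have h2 : (inr ⟨sg, ⟨1, by simp⟩⟩ : G) = 1 := hB _ (by rw [h1]; simp)
    exact ne_one_of_right _ h2

/-- The affine space on which `G` acts by affine maps. -/
def Aff : Type := E

instance : MulAction G Aff where
  smul g v := (g.left * (g.right : MulAut E) v : E)
  one_smul v := by
    change ((1 : G).left * ((1 : G).right : MulAut E) v : E) = v
    rw [SemidirectProduct.one_left, one_mul]
    rfl
  mul_smul g h v := by
    change ((g * h).left * ((g * h).right : MulAut E) v : E) =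
      (g.left * (g.right : MulAut E) (h.left * (h.right : MulAut E) v) : E)
    rw [SemidirectProduct.mul_left, map_mul, mul_assoc]
    rfl

theorem aff_smul (g : G) (v : Aff) : g • v = (g.left * (g.right : MulAut E) v : E) := rfl

/-- `2` is a base size. -/
theorem two_mem : 2 ∈ baseSizeSet G := by
  have hU : U (S := Aff) (1 : E) = ⊥ := by
    rw [Subgroup.eq_bot_iff_forall]
    intro v hv
    have h1 : ((inl v : G).left * ((inl v : G).right : MulAut E) 1 : E) = 1 := mem_U.mp hv
    simpa using h1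
  have hf : FaithfulSMul G Aff := by
    constructor
    intro g h hgh
    have h1 : ∀ v : E, g.left * (g.right : MulAut E) v = h.left * (h.right : MulAut E) v :=
      fun v => hgh v
    have h2 : g.left = h.left := by simpa using h1 1
    apply SemidirectProduct.ext h2
    apply Subtype.ext
    apply MulEquiv.ext
    intro v
    have h3 := h1 v
    rw [h2] at h3
    exact mul_left_cancel h3
  refine ⟨Aff, inferInstanceAs (Finite E), inferInstance, hf, ?_⟩
  obtain ⟨B, hB, hc⟩ := base_of_bot hU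
  have hmin : ∀ B : Finset Aff, IsBase G B → 2 ≤ B.card := by
    intro B hB
    by_contra hcon
    push Not at hcon
    -- all points of `B` are equal to one point `x`
    obtain ⟨x, hx⟩ : ∃ x : E, ∀ y ∈ B, y = x := by
      rcases Nat.lt_succ_iff_lt_or_eq.mp hcon with h | h
      · have h1 : B = ∅ := Finset.card_eq_zero.mp (by omega)
        exact ⟨1, by rw [h1]; simp⟩
      · obtain ⟨x, rfl⟩ := Finset.card_eq_one.mp h
        exact ⟨x, by simp⟩
    have h1 : (⟨x * (sg x)⁻¹, ⟨sg, ⟨1, by simp⟩⟩⟩ : G) = 1 := by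
      apply hB
      intro y hy
      rw [hx y hy]
      change (x * (sg x)⁻¹ * sg x : E) = x
      rw [inv_mul_cancel_right]
    exact ne_one_of_right _ h1
  exact ⟨⟨B, hB, le_antisymm hc (hmin B hB)⟩, hmin⟩

/-- A hyperplane. -/
def U0 : Subgroup E where
  carrier := {v | (Multiplicative.toAdd v).1 = 0}
  one_mem' := rfl
  mul_mem' := by
    intro a b ha hb
    change (Multiplicative.toAdd a).1 + (Multiplicative.toAdd b).1 = 0
    rw [ha, hb, add_zero]
  inv_mem' := by
    intro a ha
    change -(Multiplicative.toAdd a).1 = 0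
    rw [ha, neg_zero]

theorem mem_U0 {v : E} : v ∈ U0 ↔ (Multiplicative.toAdd v).1 = 0 := Iff.rfl

theorem card_U0 : 8 ≤ Nat.card U0 := by
  let f : ZMod 2 × ZMod 2 × ZMod 2 → U0 := fun v => ⟨Multiplicative.ofAdd (0, v), rfl⟩
  have hf : Function.Injective f := by
    intro v w h
    have := congrArg (fun u : U0 => (Multiplicative.toAdd (u : E)).2) h
    exact this
  have h := Nat.card_le_card_of_injective f hf
  have h2 : Nat.card (ZMod 2 × ZMod 2 × ZMod 2) = 8 := by
    rw [Nat.card_eq_fintype_card]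
    decide +kernel
  omega

/-- `4` is a base size. -/
theorem four_mem : 4 ∈ baseSizeSet G := by
  let H : Subgroup G := U0.map inl
  -- the translation stabilizers are the conjugates of the hyperplane
  have hU : ∀ x : G ⧸ H, 8 ≤ Nat.card (U x) := by
    intro x
    obtain ⟨g, rfl⟩ := QuotientGroup.mk_surjective x
    have hsub : ∀ v : U0, (g.right : MulAut E) v ∈ U (QuotientGroup.mk g : G ⧸ H) := by
      intro v
      rw [mem_U, ← conj_inl]
      change (QuotientGroup.mk (g * inl (v : E) * g⁻¹ * g) : G ⧸ H) = QuotientGroup.mk g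
      rw [inv_mul_cancel_right, eq_comm, QuotientGroup.eq]
      rw [inv_mul_cancel_left]
      exact ⟨v, v.2, rfl⟩
    refine card_U0.trans (Nat.card_le_card_of_injective
      (fun v : U0 => (⟨(g.right : MulAut E) v, hsub v⟩ : U (QuotientGroup.mk g : G ⧸ H))) ?_)
    intro v w hvw
    have := congrArg Subtype.val hvw
    exact Subtype.ext ((g.right : MulAut E).injective this)
  have hf : FaithfulSMul G (G ⧸ H) := by
    have hker : ∀ g : G, (∀ x : G ⧸ H, g • x = x) → g = 1 := by
      intro g hg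
      have hconj : ∀ a : G, a⁻¹ * g * a ∈ H := by
        intro a
        have h1 : (QuotientGroup.mk (g * a) : G ⧸ H) = QuotientGroup.mk a := hg (QuotientGroup.mk a)
        have h2 := QuotientGroup.eq.mp h1.symm
        rwa [← mul_assoc] at h2
      have h1 : g ∈ H := by simpa using hconj 1
      obtain ⟨u, hu, rfl⟩ := h1
      by_contra hne
      have hu1 : u ≠ 1 := by
        rintro rfl
        exact hne (map_one inl)
      have hz : ∀ k : ℕ, (sg ^ k) u ∈ U0 := by
        intro k
        have h3 := hconj ((inr ⟨sg ^ k, ⟨k, by simp⟩⟩ : G)⁻¹)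
        rw [inv_inv, conj_inl] at h3
        obtain ⟨w, hw, hw2⟩ := h3
        have h4 := inl_injective hw2
        have h5 : (sg ^ k) u = w := h4.symm
        rw [h5]
        exact hw
      have h0 := hz 0
      have h1 := hz 1
      have h2 := hz 2
      have h3 := hz 3
      rw [mem_U0] at h0 h1 h2 h3
      have hdec : ∀ u : E, (Multiplicative.toAdd ((sg ^ 0) u)).1 = 0 →
          (Multiplicative.toAdd ((sg ^ 1) u)).1 = 0 → (Multiplicative.toAdd ((sg ^ 2) u)).1 = 0 →
          (Multiplicative.toAdd ((sg ^ 3) u)).1 = 0 → u = 1 := by decide +kernel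
      exact hu1 (hdec u h0 h1 h2 h3)
    constructor
    intro g h hgh
    have := hker (h⁻¹ * g) (fun x => by rw [mul_smul, hgh, inv_smul_smul])
    exact (inv_mul_eq_one.mp this).symm
  refine ⟨G ⧸ H, inferInstance, inferInstance, hf, ?_⟩
  obtain ⟨B, hB, hc⟩ := base_four hU
  exact ⟨⟨B, hB, le_antisymm hc (four_le hU B hB)⟩, four_le hU⟩

end Examples

/-- **Main theorem.**  There is a nontrivial finite group (of order `80`) whose base size set is
`{1, 2, 4}`; so the base size set of a finite group need not be an initial segment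
`{1, …, k}` of the positive integers. -/
theorem result : ∃ (G : Type) (_ : Group G) (_ : Finite G), Nontrivial G ∧
    baseSizeSet G = {1, 2, 4} ∧ ∀ k : ℕ, baseSizeSet G ≠ {n | 1 ≤ n ∧ n ≤ k} := by
  have hset : baseSizeSet G = {1, 2, 4} := by
    ext n
    constructor
    · rintro ⟨S, _, _, _, h⟩
      exact baseSize_mem h
    · rintro (rfl | rfl | rfl)
      · exact one_mem
      · exact two_mem
      · exact four_mem
  refine ⟨G, inferInstance, inferInstance, ?_, hset, ?_⟩
  · refine ⟨SemidirectProduct.inl (Multiplicative.ofAdd (1, 0, 0, 0)), 1, ?_⟩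
    intro h
    have h1 := SemidirectProduct.inl_injective (h.trans (map_one SemidirectProduct.inl).symm)
    revert h1
    decide
  · intro k hk
    rw [hset] at hk
    have h4 : (4 : ℕ) ∈ ({n | 1 ≤ n ∧ n ≤ k} : Set ℕ) := by rw [← hk]; simp
    have h3 : (3 : ℕ) ∈ ({1, 2, 4} : Set ℕ) := by
      rw [hk]
      exact ⟨by norm_num, by have := h4.2; omega⟩
    simp at h3

end Pool.Agent.Results.MP_2beb52_al.BaseSizeGap
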